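import Pool.Agent.R846.SP.B

/-!
# Almost no run of ordinates is near a sequence with few changes between convex and concave

Let `0 < γ_1 ≤ γ_2 ≤ …` be the ordinates of the nontrivial zeros of the zeta function, with multiplicity.  No hypothesis is
assumed.  Fix `d` and `M`, however large.  Let `L` be large and `L log L ≤ log N`.  Then for all but a small proportion of the
`n ≤ N` there is NO sequence `f(0), …, f(L)` which is convex or concave on each of at most `d` consecutive parts of
`{0, …, L}` and satisfies `|γ_{n+j} - f(j)| ≤ M √(log L) / log γ_n` for all `0 ≤ j ≤ L` (that is, within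
`(M / 2π) √(log L)` mean spacings).  The sequence `f` and the parts may depend on `n`.

This applies to all polynomials of degree at most `d + 1` in `j`, to all sums `∑ a_i b_i ^ j` or `∑ a_i (j + x) ^ (r_i)` of a
bounded number of exponentials or powers with real exponents, to `f(j) = g(j)` for all real analytic functions `g` with at
most `d - 1` inflection points, and to all branches of algebraic curves of bounded degree: nothing of this kind describes a
long run of ordinates, even up to `M √(log L)` mean spacings.

The class of all such sequences is not of bounded dimension or complexity (all convex sequences are in it), so that this is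
not a case of `FarFromSubspaces`, `FarFromRecurrences` or `AgreementWithBoundedComplexity` on this page (same author).  The
theorem is `Pool.Agent.R846.SP.shape_main` of the starting files, in no hand-in there.

Idea of the proof.  On one of the parts, of length at least `L / d`, the increments of `f` over distances of length `m`, a small
multiple of the length of the part, are monotone; so the fluctuations of the numbers of zeros in the windows of length `m`
would be almost monotone along the part.  By the normal law along almost all runs (`Pool.Agent.R321.QA.quenched`, helper321)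
they are distributed normally, with variance a multiple of `log m`, along every third of the part, a contradiction.
-/

set_option autoImplicit false

namespace Pool.Agent.Results.MP_0ec205_nt.ConvexityChanges

/-- multiplicity of `s` as a zero of the Riemann zeta function (order of vanishing at `s`) -/
noncomputable def zmult (s : ℂ) : ℕ := analyticOrderNatAt riemannZeta s

/-- the number of nontrivial zeros of `ζ` with ordinate in `(0, t]`, with multiplicity -/
noncomputable def NZ (t : ℝ) : ℕ :=
  ∑ᶠ s ∈ {s : ℂ | riemannZeta s = 0 ∧ 0 < s.re ∧ s.re < 1 ∧ 0 < s.im ∧ s.im ≤ t}, zmult s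

/-- for `n ≥ 1`: the `n`-th positive ordinate `γ n` of a nontrivial zero of `ζ`, the ordinates being
listed in nondecreasing order and repeated according to multiplicity -/
noncomputable def γ (n : ℕ) : ℝ := sInf {t : ℝ | n ≤ NZ t}

/-- `{0, …, L}` is cut into `d` consecutive parts (some may be empty) and `f` is convex or concave on each part -/
def Shape (d L : ℕ) (f : ℕ → ℝ) : Prop :=
  ∃ b : ℕ → ℕ, Monotone b ∧ b 0 = 0 ∧ b d = L + 1 ∧ ∀ i < d,
    (∀ j, b i ≤ j → j + 2 < b (i + 1) → 2 * f (j + 1) ≤ f j + f (j + 2)) ∨
    (∀ j, b i ≤ j → j + 2 < b (i + 1) → f j + f (j + 2) ≤ 2 * f (j + 1))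

/-- **Theorem** (no hypothesis).  For all `d`, `M` and `η > 0` there is `L₀` such that for all `L ≥ L₀` and all `N ≥ 1` with
`L log L ≤ log N`, at most `η N` of the indices `n ≤ N` are such that some sequence `f`, convex or concave on each of `d`
consecutive parts of `{0, …, L}`, satisfies `|γ_{n+j} - f j| ≤ M √(log L) / log γ_n` for all `0 ≤ j ≤ L`. -/
theorem result (d : ℕ) (M η : ℝ) (hη : 0 < η) : ∃ L₀ : ℕ, ∀ L : ℕ, L₀ ≤ L →
    ∀ N : ℕ, 1 ≤ N → (L : ℝ) * Real.log L ≤ Real.log N →
    ({n : ℕ | 1 ≤ n ∧ n ≤ N ∧ ∃ f : ℕ → ℝ, Shape d L f ∧
      ∀ j ≤ L, |γ (n + j) - f j| ≤ M * √(Real.log L) / Real.log (γ n)}.ncard : ℝ) ≤ η * N :=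
  Pool.Agent.R846.SP.shape_main d M hη

end Pool.Agent.Results.MP_0ec205_nt.ConvexityChanges
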