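import Pool.Agent.TH87.RVC.Main

set_option autoImplicit false

/-!
# Graphs with few edges outside a small set of vertices

`T(G)` is the set of nonempty cliques of `G` ordered by inclusion. Let `A` be a set of `a` vertices of a
finite graph `G` with `n` vertices; there is no condition on the edges which meet `A`.

(1) If every vertex outside `A` has at most `k` neighbours outside `A` and at least
`(5/2 a log a + 3)^2 + a (2 a + k)` vertices outside `A` have no neighbour outside `A`, then `T(G)` and `T` of
the complement of `G` are reconstructible from their decks of maximal filter deleted subsets.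

(2) The same holds if every vertex outside `A` has at most `k` neighbours outside `A`, the number of the edges
of `G - A` is `e`, and `(5/2 a log a + 3)^2 + a (2 a + k + 1) + 2 e ≤ n`.

(3) The same holds if the number of the edges of `G - A` is `e`, and
`(5/2 a log a + 3)^2 + a (2 a + 1) + (a + 2) e ≤ n`.

So a graph is reconstructible if for some `a ≤ c n^(1/2) / log n` the deletion of `a` vertices leaves a graph
with at most `n / 4` edges and maximum degree at most `n / (8 a)`, or just a graph with at most `n / (4 (a + 2))`
edges.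

The first part is the theorem `Pool.Agent.TH87.RVC.main` of the starting library, which was not handed in.
-/

namespace Pool.Agent.Results.MP_552896_co.FewEdgesOutside

open Finset

/-- The truncated clique lattices of `G` and `H` have the same deck of maximal filter deleted
subsets: some bijection `f` of the vertex sets is such that, for every vertex `v`, the nonempty
cliques of `G` avoiding `v` and the nonempty cliques of `H` avoiding `f v`, both ordered by
inclusion, are isomorphic ordered sets. -/
def SameDeck {V W : Type} (G : SimpleGraph V) (H : SimpleGraph W) : Prop :=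
  ∃ f : V ≃ W, ∀ v : V,
    Nonempty ({s : Finset V // s.Nonempty ∧ G.IsClique (s : Set V) ∧ v ∉ s} ≃o
      {t : Finset W // t.Nonempty ∧ H.IsClique (t : Set W) ∧ f v ∉ t})

/-- `T(G)` is reconstructible from its deck: every truncated clique lattice `T(H)` of a finite
graph `H` with the same deck is isomorphic to `T(G)`. -/
def Reconstructible {V : Type} (G : SimpleGraph V) : Prop :=
  ∀ (W : Type) [Fintype W] (H : SimpleGraph W), SameDeck G H →
    Nonempty ({s : Finset V // s.Nonempty ∧ G.IsClique (s : Set V)} ≃o
      {t : Finset W // t.Nonempty ∧ H.IsClique (t : Set W)})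

open Classical in
/-- the number of the neighbours of `v` outside `A` -/
noncomputable def outDeg {V : Type} [Fintype V] (G : SimpleGraph V) (A : Finset V) (v : V) : ℕ :=
  (univ.filter (fun y => y ∉ A ∧ G.Adj v y)).card

open Classical in
/-- the number of the vertices outside `A` which have no neighbour outside `A` -/
noncomputable def isolated {V : Type} [Fintype V] (G : SimpleGraph V) (A : Finset V) : ℕ :=
  (univ.filter (fun v => v ∉ A ∧ ∀ y, G.Adj v y → y ∈ A)).card

/-- the number of the edges of `G - A` -/
noncomputable def edgesOutside {V : Type} [Fintype V] (G : SimpleGraph V) (A : Finset V) : ℕ :=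
  {e ∈ G.edgeSet | ∀ v ∈ e, v ∉ A}.ncard

open Classical in
/-- the ordered pairs of adjacent vertices outside `A` -/
noncomputable def prs {V : Type} [Fintype V] (G : SimpleGraph V) (A : Finset V) : Finset (V × V) :=
  univ.filter (fun p => G.Adj p.1 p.2 ∧ p.1 ∉ A ∧ p.2 ∉ A)

lemma prs_le {V : Type} [Fintype V] (G : SimpleGraph V) (A : Finset V) :
    (prs G A).card ≤ 2 * edgesOutside G A := by
  classical
  have hfin : {e ∈ G.edgeSet | ∀ v ∈ e, v ∉ A}.Finite := Set.toFinite _
  have h1 : edgesOutside G A = hfin.toFinset.card := Set.ncard_eq_toFinset_card _ hfin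
  rw [h1]
  refine card_le_mul_card_image_of_maps_to (f := fun p : V × V => s(p.1, p.2)) ?_ 2 ?_
  · intro p hp
    obtain ⟨h2, h3, h4⟩ := (mem_filter.1 hp).2
    rw [Set.Finite.mem_toFinset]
    refine ⟨h2, ?_⟩
    intro v hv
    rcases Sym2.mem_iff.1 hv with rfl | rfl
    · exact h3
    · exact h4
  · intro e _
    induction e using Sym2.ind with
    | _ x y =>
      have h2 : (prs G A).filter (fun p : V × V => s(p.1, p.2) = s(x, y)) ⊆ {(x, y), (y, x)} := by
        intro p hp
        have h3 := (mem_filter.1 hp).2
        rw [mem_insert, mem_singleton]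
        rcases Sym2.eq_iff.1 h3 with ⟨h4, h5⟩ | ⟨h4, h5⟩
        · exact Or.inl (Prod.ext h4 h5)
        · exact Or.inr (Prod.ext h4 h5)
      exact (card_le_card h2).trans card_le_two

lemma two_outDeg_le {V : Type} [Fintype V] (G : SimpleGraph V) (A : Finset V) (v : V) (hv : v ∉ A) :
    2 * outDeg G A v ≤ (prs G A).card := by
  classical
  have h1 : Disjoint ((univ.filter (fun y => y ∉ A ∧ G.Adj v y)).image (fun y => (v, y)))
      ((univ.filter (fun y => y ∉ A ∧ G.Adj v y)).image (fun y => (y, v))) := by
    rw [disjoint_left]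
    intro p hp hq
    obtain ⟨y, hy, rfl⟩ := mem_image.1 hp
    obtain ⟨z, hz, h2⟩ := mem_image.1 hq
    have h3 : z = v := congrArg Prod.fst h2
    rw [h3] at hz
    exact G.loopless.irrefl v (mem_filter.1 hz).2.2
  have h2 : (univ.filter (fun y => y ∉ A ∧ G.Adj v y)).image (fun y => (v, y)) ∪
      (univ.filter (fun y => y ∉ A ∧ G.Adj v y)).image (fun y => (y, v)) ⊆ prs G A := by
    intro p hp
    rcases mem_union.1 hp with h | h
    · obtain ⟨y, hy, rfl⟩ := mem_image.1 h
      obtain ⟨h3, h4⟩ := (mem_filter.1 hy).2
      exact mem_filter.2 ⟨mem_univ _, h4, hv, h3⟩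
    · obtain ⟨y, hy, rfl⟩ := mem_image.1 h
      obtain ⟨h3, h4⟩ := (mem_filter.1 hy).2
      exact mem_filter.2 ⟨mem_univ _, h4.symm, h3, hv⟩
  have h3 := card_le_card h2
  rw [card_union_of_disjoint h1, card_image_of_injective _ (fun a b h => congrArg Prod.snd h),
    card_image_of_injective _ (fun a b h => congrArg Prod.fst h)] at h3
  unfold outDeg
  omega

lemma le_isolated {V : Type} [Fintype V] (G : SimpleGraph V) (A : Finset V) :
    Fintype.card V ≤ isolated G A + A.card + (prs G A).card := by
  classical
  have h1 : (univ : Finset V) ⊆ (univ.filter (fun v => v ∉ A ∧ ∀ y, G.Adj v y → y ∈ A)) ∪ A ∪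
      (prs G A).image Prod.fst := by
    intro v _
    by_cases h2 : v ∈ A
    · exact mem_union_left _ (mem_union_right _ h2)
    · by_cases h3 : ∀ y, G.Adj v y → y ∈ A
      · exact mem_union_left _ (mem_union_left _ (mem_filter.2 ⟨mem_univ _, h2, h3⟩))
      · push Not at h3
        obtain ⟨y, h4, h5⟩ := h3
        exact mem_union_right _ (mem_image.2 ⟨(v, y), mem_filter.2 ⟨mem_univ _, h4, h2, h5⟩, rfl⟩)
  have h2 := card_le_card h1
  have h3 : ((prs G A).image Prod.fst).card ≤ (prs G A).card := card_image_le
  have h4 := card_union_le ((univ.filter (fun v => v ∉ A ∧ ∀ y, G.Adj v y → y ∈ A)) ∪ A)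
    ((prs G A).image Prod.fst)
  have h5 := card_union_le (univ.filter (fun v => v ∉ A ∧ ∀ y, G.Adj v y → y ∈ A)) A
  rw [card_univ] at h2
  unfold isolated
  omega

/-- **Graphs with few edges outside a small set of vertices.** `A` is a set of vertices of the finite graph `G`.
`T(G)` and `T(Gᶜ)` are reconstructible in each of the following cases: (1) every vertex outside `A` has at most
`k` neighbours outside `A`, and at least `(5/2 |A| log |A| + 3)^2 + |A| (2 |A| + k)` vertices outside `A` have no
neighbour outside `A`; (2) every vertex outside `A` has at most `k` neighbours outside `A`, and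
`(5/2 |A| log |A| + 3)^2 + |A| (2 |A| + k + 1) + 2 e ≤ |V|` for the number `e` of the edges of `G - A`;
(3) `(5/2 |A| log |A| + 3)^2 + |A| (2 |A| + 1) + (|A| + 2) e ≤ |V|`. -/
theorem result {V : Type} [Fintype V] (G : SimpleGraph V) (A : Finset V) :
    (∀ k : ℕ, (∀ v, v ∉ A → outDeg G A v ≤ k) →
      (5 / 2 * (A.card * Real.log A.card) + 3) ^ 2 + A.card * (2 * A.card + k) ≤ (isolated G A : ℝ) →
        Reconstructible G ∧ Reconstructible Gᶜ) ∧
    (∀ k : ℕ, (∀ v, v ∉ A → outDeg G A v ≤ k) →
      (5 / 2 * (A.card * Real.log A.card) + 3) ^ 2 + A.card * (2 * A.card + k + 1) +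
        2 * edgesOutside G A ≤ (Fintype.card V : ℝ) →
        Reconstructible G ∧ Reconstructible Gᶜ) ∧
    ((5 / 2 * (A.card * Real.log A.card) + 3) ^ 2 + A.card * (2 * A.card + 1) +
        (A.card + 2) * edgesOutside G A ≤ (Fintype.card V : ℝ) →
        Reconstructible G ∧ Reconstructible Gᶜ) := by
  have h1 : ∀ k : ℕ, (∀ v, v ∉ A → outDeg G A v ≤ k) →
      (5 / 2 * (A.card * Real.log A.card) + 3) ^ 2 + A.card * (2 * A.card + k) ≤ (isolated G A : ℝ) →
        Reconstructible G ∧ Reconstructible Gᶜ :=
    fun k hk hm => Pool.Agent.TH87.RVC.main G A k hk hm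
  have h2 : ∀ k : ℕ, (∀ v, v ∉ A → outDeg G A v ≤ k) →
      (5 / 2 * (A.card * Real.log A.card) + 3) ^ 2 + A.card * (2 * A.card + k + 1) +
        2 * edgesOutside G A ≤ (Fintype.card V : ℝ) →
        Reconstructible G ∧ Reconstructible Gᶜ := by
    intro k hk hm
    refine h1 k hk ?_
    have h3 : (Fintype.card V : ℝ) ≤ isolated G A + A.card + (prs G A).card := by
      exact_mod_cast le_isolated G A
    have h4 : ((prs G A).card : ℝ) ≤ 2 * edgesOutside G A := by exact_mod_cast prs_le G A
    nlinarith
  refine ⟨h1, h2, fun hm => ?_⟩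
  refine h2 (edgesOutside G A) (fun v hv => ?_) ?_
  · have h3 := two_outDeg_le G A v hv
    have h4 := prs_le G A
    omega
  · nlinarith

end Pool.Agent.Results.MP_552896_co.FewEdgesOutside
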