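import Mathlib

set_option autoImplicit false

/-!
# Independent domination versus weak domination in trees

For every finite tree `T` one has `i(T) ≤ γ_W(T)` (conjecture of Sampathkumar and Pushpa Latha).

Proof. Let `D` be a dominating set of a tree which contains all leaves; a weak dominating set has this
property unless the tree is a single edge. Root the tree and choose from the top to the bottom: a
vertex is chosen if its parent is not chosen and if the vertex itself or one of its children
belongs to `D`. The chosen vertices are independent. A vertex `v` which is not chosen, with a parent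
which is not chosen, has no child in `D`, so it is not a leaf, and its children are dominated by their
children, so they are all chosen. The map sending a chosen vertex of `D` to itself and any other
chosen vertex to a child in `D` is injective, so there are at most `|D|` chosen vertices.
-/

namespace Pool.Agent.Results.MP_2d208d_co.IndependentWeak

open Finset

section defs

variable {V : Type*}

/-- `D` is a dominating set: every vertex outside `D` has a neighbour in `D`. -/
def IsDom (G : SimpleGraph V) (D : Finset V) : Prop :=
  ∀ v, v ∉ D → ∃ u ∈ D, G.Adj u v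

/-- `D` is an independent dominating set. -/
def IsIndepDom (G : SimpleGraph V) (D : Finset V) : Prop :=
  IsDom G D ∧ ∀ u ∈ D, ∀ v ∈ D, ¬ G.Adj u v

/-- `D` is a weak dominating set: every vertex `v` outside `D` has a neighbour `u` in `D` with
`deg u ≤ deg v`. -/
def IsWeakDom (G : SimpleGraph V) (D : Finset V) : Prop :=
  ∀ v, v ∉ D → ∃ u ∈ D, G.Adj u v ∧ (G.neighborSet u).ncard ≤ (G.neighborSet v).ncard

/-- The independent domination number `i(G)`. -/
noncomputable def indepDomNumber (G : SimpleGraph V) : ℕ :=
  sInf {k | ∃ D : Finset V, IsIndepDom G D ∧ D.card = k}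

/-- The weak domination number `γ_W(G)`. -/
noncomputable def weakDomNumber (G : SimpleGraph V) : ℕ :=
  sInf {k | ∃ D : Finset V, IsWeakDom G D ∧ D.card = k}

/-- A vertex of a rooted tree has only one parent. -/
theorem parent_unique {G : SimpleGraph V} (hG : G.IsTree) (r : V) {v u₁ u₂ : V}
    (h1 : G.Adj v u₁) (h2 : G.Adj v u₂) (hd1 : G.dist r v = G.dist r u₁ + 1)
    (hd2 : G.dist r v = G.dist r u₂ + 1) : u₁ = u₂ := by
  classical
  obtain ⟨p, hp, hp'⟩ := (hG.connected r v).exists_path_of_dist
  have key : ∀ u, G.Adj v u → G.dist r v = G.dist r u + 1 → u = p.penultimate := by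
    intro u hu hd
    obtain ⟨q, hq, hq'⟩ := (hG.connected r u).exists_path_of_dist
    have hv : v ∉ q.support := by
      intro hv
      have h3 : G.dist r v ≤ (q.takeUntil v hv).length := SimpleGraph.dist_le _
      have h4 := q.length_takeUntil_le_length hv
      omega
    exact hG.isAcyclic.eq_penultimate_of_adj_end hp hu
      (hG.isAcyclic.mem_support_of_ne_mem_support_of_adj_of_isPath hp hq hu hv)
  rw [key u₁ h1 hd1, key u₂ h2 hd2]

/-- the vertices with an element of `D` among themselves and their children -/
def T (G : SimpleGraph V) (r : V) (D : Finset V) (v : V) : Prop :=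
  v ∈ D ∨ ∃ c ∈ D, G.Adj v c ∧ G.dist r c = G.dist r v + 1

/-- the choice from the top to the bottom -/
def J (G : SimpleGraph V) (r : V) (D : Finset V) : ℕ → V → Prop
  | 0, v => T G r D v
  | n + 1, v => T G r D v ∧ ∀ u, G.Adj u v → G.dist r u = n → ¬ J G r D n u

theorem J_T {G : SimpleGraph V} {r : V} {D : Finset V} {n : ℕ} {v : V} (h : J G r D n v) :
    T G r D v := by
  cases n with
  | zero => exact h
  | succ n => exact h.1

/-- Every dominating set of a tree that contains all vertices of degree at most one is at least as
large as some independent dominating set. -/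
theorem main [Fintype V] {G : SimpleGraph V} (hG : G.IsTree) (D : Finset V) (hD : IsDom G D)
    (hL : ∀ v, v ∉ D → ∀ u, G.Adj v u → ∃ t, t ≠ u ∧ G.Adj v t) :
    ∃ I : Finset V, IsIndepDom G I ∧ I.card ≤ D.card := by
  classical
  obtain ⟨r⟩ := hG.connected.nonempty
  set I : Finset V := univ.filter (fun v => J G r D (G.dist r v) v) with hI
  have memI : ∀ v, v ∈ I ↔ J G r D (G.dist r v) v := fun v => by simp [hI]
  have hind : ∀ u v, G.Adj u v → G.dist r v = G.dist r u + 1 → u ∈ I → v ∈ I → False := by
    intro u v huv hd hu hv
    rw [memI] at hu hv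
    rw [hd] at hv
    exact hv.2 u huv rfl hu
  have hind' : ∀ u ∈ I, ∀ v ∈ I, ¬ G.Adj u v := by
    intro u hu v hv huv
    rcases hG.dist_eq_dist_add_one_of_adj r huv with h | h
    · exact hind v u huv.symm h hv hu
    · exact hind u v huv h hu hv
  refine ⟨I, ⟨?_, hind'⟩, ?_⟩
  · intro v hv
    by_cases hT : T G r D v
    · rw [memI] at hv
      cases hn : G.dist r v with
      | zero => rw [hn] at hv; exact absurd hT hv
      | succ n =>
        rw [hn] at hv
        have : ∃ u, G.Adj u v ∧ G.dist r u = n ∧ J G r D n u := by
          by_contra hc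
          exact hv ⟨hT, fun u h1 h2 h3 => hc ⟨u, h1, h2, h3⟩⟩
        obtain ⟨u, h1, h2, h3⟩ := this
        exact ⟨u, (memI u).2 (by rw [h2]; exact h3), h1⟩
    · have hvD : v ∉ D := fun h => hT (Or.inl h)
      obtain ⟨u, huD, huv⟩ := hD v hvD
      have hdu : G.dist r v = G.dist r u + 1 := by
        rcases hG.dist_eq_dist_add_one_of_adj r huv with h | h
        · exact absurd (Or.inr ⟨u, huD, huv.symm, h⟩) hT
        · exact h
      obtain ⟨t, htu, hvt⟩ := hL v hvD u huv.symm
      have hdt : G.dist r t = G.dist r v + 1 := by
        rcases hG.dist_eq_dist_add_one_of_adj r hvt with h | h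
        · exact absurd (parent_unique hG r hvt huv.symm h hdu) htu
        · exact h
      have htD : t ∉ D := fun h => hT (Or.inr ⟨t, h, hvt, hdt⟩)
      obtain ⟨w, hwD, hwt⟩ := hD t htD
      have hdw : G.dist r w = G.dist r t + 1 := by
        rcases hG.dist_eq_dist_add_one_of_adj r hwt with h | h
        · exact h
        · exact absurd ((parent_unique hG r hwt.symm hvt.symm h hdt) ▸ hwD) hvD
      refine ⟨t, (memI t).2 ?_, hvt.symm⟩
      rw [hdt]
      refine ⟨Or.inr ⟨w, hwD, hwt.symm, hdw⟩, fun u' h1 h2 h3 => hv ((memI v).2 ?_)⟩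
      have : u' = v := parent_unique hG r h1.symm hvt.symm (by rw [hdt, h2]) hdt
      rw [← this, h2, ← this] at *
      exact h3
  · have hf : ∀ v ∈ I, ∃ w ∈ D, w = v ∨ (v ∉ D ∧ G.Adj v w ∧ G.dist r w = G.dist r v + 1) := by
      intro v hv
      by_cases hvD : v ∈ D
      · exact ⟨v, hvD, Or.inl rfl⟩
      · rcases J_T ((memI v).1 hv) with h | ⟨c, hc, h1, h2⟩
        · exact absurd h hvD
        · exact ⟨c, hc, Or.inr ⟨hvD, h1, h2⟩⟩
    choose! f hfD hf using hf
    refine Finset.card_le_card_of_injOn f (fun v hv => hfD v hv) ?_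
    intro v₁ h1 v₂ h2 h
    have h1' : v₁ ∈ I := h1
    have h2' : v₂ ∈ I := h2
    rcases hf v₁ h1' with e1 | ⟨-, e1, e1'⟩ <;> rcases hf v₂ h2' with e2 | ⟨-, e2, e2'⟩
    · rw [← e1, ← e2, h]
    · rw [← h, e1] at e2
      exact absurd e2 (hind' v₂ h2' v₁ h1')
    · rw [h, e2] at e1
      exact absurd e1 (hind' v₁ h1' v₂ h2')
    · rw [h] at e1 e1'
      exact parent_unique hG r e1.symm e2.symm e1' e2'

end defs

/-- **Sampathkumar and Pushpa Latha's conjecture**: `i(T) ≤ γ_W(T)` for every finite tree `T`. -/
theorem result (V : Type*) [Fintype V] (G : SimpleGraph V) (hG : G.IsTree) :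
    indepDomNumber G ≤ weakDomNumber G := by
  classical
  have hne : {k | ∃ D : Finset V, IsWeakDom G D ∧ D.card = k}.Nonempty :=
    ⟨_, univ, fun v hv => absurd (mem_univ v) hv, rfl⟩
  obtain ⟨D, hD, hDk⟩ := Nat.sInf_mem hne
  have hex : ∃ I : Finset V, IsIndepDom G I ∧ I.card ≤ D.card := by
    by_cases hL : ∀ v, v ∉ D → ∀ u, G.Adj v u → ∃ t, t ≠ u ∧ G.Adj v t
    · refine main hG D (fun v hv => ?_) hL
      obtain ⟨u, hu, huv, -⟩ := hD v hv
      exact ⟨u, hu, huv⟩
    · push Not at hL
      obtain ⟨v, hvD, u, hvu, ht⟩ := hL
      obtain ⟨u', hu', hu'v, hdeg⟩ := hD v hvD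
      have huu : u' = u := by
        by_contra hne
        exact ht u' hne hu'v.symm
      subst huu
      have hNv : G.neighborSet v = {u'} := by
        ext w
        rw [SimpleGraph.mem_neighborSet, Set.mem_singleton_iff]
        refine ⟨fun hw => ?_, fun hw => hw ▸ hvu⟩
        by_contra hne
        exact ht w hne hw
      rw [hNv, Set.ncard_singleton] at hdeg
      have hNu : ∀ w, G.Adj u' w → w = v := by
        intro w hw
        have := (Set.ncard_le_one (Set.toFinite _)).1 hdeg
        exact this w hw v hvu.symm
      have hall : ∀ w, w = u' ∨ w = v := by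
        intro w
        obtain ⟨p⟩ := hG.connected u' w
        have : ∀ a b : V, G.Walk a b → (a = u' ∨ a = v) → (b = u' ∨ b = v) := by
          intro a b q
          induction q with
          | nil => exact id
          | cons h q ih =>
            intro ha
            apply ih
            rcases ha with ha | ha
            · subst ha; exact Or.inr (hNu _ h)
            · subst ha
              left
              have h5 := (Set.ext_iff.1 hNv _).1 h
              exact h5
        exact this _ _ p (Or.inl rfl)
      refine ⟨{u'}, ⟨fun w hw => ?_, ?_⟩, ?_⟩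
      · rcases hall w with h | h
        · exact absurd (mem_singleton.2 h) hw
        · exact ⟨u', mem_singleton_self _, h ▸ hvu.symm⟩
      · intro a ha b hb
        rw [mem_singleton] at ha hb
        subst ha; subst hb
        exact G.loopless.irrefl _
      · rw [card_singleton]
        exact card_pos.2 ⟨u', hu'⟩
  obtain ⟨I, hI, hIc⟩ := hex
  calc indepDomNumber G ≤ I.card := Nat.sInf_le ⟨I, hI, rfl⟩
    _ ≤ D.card := hIc
    _ = weakDomNumber G := hDk

end Pool.Agent.Results.MP_2d208d_co.IndependentWeak
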