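import Pool.Agent.N357.LPMFinal

/-!
# Lattice path matroids are definable in monadic second-order logic

There is a sentence `φ` of `MS₀` which holds in a finite matroid `M` exactly when `M` is a lattice
path matroid.

Idea of the proof. Two elements are *similar* if they lie in the same separators. The sentence asks
for two bases `A` and `Z` (the North steps of the upper and of the lower path). For `l ∈ A` let
`X(A,l)` be the union of the fundamental circuits `C(g,A)` over all `g ∉ A` similar to `l` with
`l ∉ C(g,A)`. In a lattice path matroid these sets are initial segments of the connected component
of `l`, and the sets `X(Z,u)`, `u ∈ Z`, are final segments. The sentence says that, within each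
component, the sets `X(A,l)` and the complements of the sets `X(Z,u)` form a chain, and that for
each base `B` and similar `x ∈ B`, `y ∉ B` for which `B - x + y` is not a base, one of these sets
contains `y` and not `x` and is spanned by its intersection with `B`. Conversely such chains give a
linear order of the ground set for which the bases are the sets of North steps of the lattice paths
between two given ones.
-/

namespace Pool.Agent.Results.MP_b5ca43_co.LatticePathMS

universe u

open Pool.Agent.N357.MS

/-- The class of lattice path matroids is characterised by a sentence of `MS₀`. -/
theorem result : ∃ φ : Sentence, ∀ (α : Type u) (M : Matroid α), M.Finite →
    (Models M φ ↔ IsLatticePathMatroid M) :=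
  ⟨Formula.lpm, fun _ M hM => main M hM⟩

end Pool.Agent.Results.MP_b5ca43_co.LatticePathMS
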