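import Mathlib
import Pool.Agent.N34.ExtAnn

/-!
# Annihilators of generic odd-degree forms: the conjectured correction term is wrong

For every odd `d > 3` the conjectured value of `τ_{n,d}` is wrong at `n = 3 d + 2`: the coefficient
of `t ^ (d + 2)` is positive (and the conjectured one is zero).
-/

set_option autoImplicit false

namespace Pool.Agent.Results.MP_071b90_al.Disproof

open ExteriorAlgebra

universe u v

section defs

variable {K : Type u} [Field K] {V : Type v} [AddCommGroup V] [Module K V] {n : ℕ}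

/-- The monomial `x_S = x_{s_1} ∧ ... ∧ x_{s_k}`, where `s_1 < ... < s_k` are the elements of `S`. -/
noncomputable def mono (x : Module.Basis (Fin n) K V) (S : Finset (Fin n)) :
    ExteriorAlgebra K V :=
  ((S.sort (· ≤ ·)).map fun i => ExteriorAlgebra.ι K (x i)).prod

/-- The form of degree `d` with coefficients `c`, the sum of `c_S x_S` over all `S` with `|S| = d`. -/
noncomputable def form (x : Module.Basis (Fin n) K V) (d : ℕ) (c : Finset (Fin n) → K) :
    ExteriorAlgebra K V :=
  ∑ S ∈ (Finset.univ : Finset (Fin n)).powersetCard d, c S • mono x S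

/-- The coefficients `c` of a form of degree `d` are generic: they are pairwise distinct,
none of them is rational, and the set of coefficients is algebraically independent over `ℚ`. -/
def IsGeneric [CharZero K] (d : ℕ) (c : Finset (Fin n) → K) : Prop :=
  (∀ S T : Finset (Fin n), S.card = d → T.card = d → c S = c T → S = T) ∧
  (∀ S : Finset (Fin n), S.card = d → ∀ q : ℚ, c S ≠ (q : K)) ∧
  AlgebraicIndependent ℚ
    (Subtype.val : {a : K // ∃ S : Finset (Fin n), S.card = d ∧ c S = a} → K)

/-- The degree `r` part of the principal ideal `(f)`. -/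
noncomputable def idealPart (f : ExteriorAlgebra K V) (r : ℕ) :
    Submodule K (ExteriorAlgebra K V) :=
  ⋀[K]^r V ⊓ (Ideal.span {f}).restrictScalars K

/-- The degree `r` part of the annihilator `{g | g ∧ f = 0}`. -/
noncomputable def annPart (f : ExteriorAlgebra K V) (r : ℕ) :
    Submodule K (ExteriorAlgebra K V) :=
  ⋀[K]^r V ⊓ LinearMap.ker (LinearMap.mulRight K f)

/-- The coefficient of `t ^ r` in `Δ_{n,d}(t)`, the sum over `r ≥ ⌈(n - d) / 2⌉` of
`(binom(n, r) - binom(n, r + d)) t ^ r`. -/
def Delta (n d r : ℕ) : ℤ :=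
  if n ≤ 2 * r + d then (n.choose r : ℤ) - (n.choose (r + d) : ℤ) else 0

/-- The coefficient of `t ^ r` in `τ_{n,d}(t) = a_{n,d}(t) - max(p_{n,d}(t), Δ_{n,d}(t))`. -/
noncomputable def tau (f : ExteriorAlgebra K V) (n d r : ℕ) : ℤ :=
  (Module.finrank K (annPart f r) : ℤ) -
    max (Module.finrank K (idealPart f r) : ℤ) (Delta n d r)

end defs

open Classical in
/-- The coefficient of `t ^ r` in the conjectured value of `τ_{n,d}(t)`: this is `t ^ (v (v+1) / 2)`
if `n - d = (v ^ 2 + 5 v) / 2 - 1` and `d = 5 + 2 v s` with `v ≥ 1`, `s ≥ 0`, and `0` otherwise. -/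
noncomputable def conjectured (n d r : ℕ) : ℤ :=
  if ∃ v s : ℕ, 1 ≤ v ∧ 2 * ((n : ℤ) - d) = v ^ 2 + 5 * v - 2 ∧ d = 5 + 2 * v * s ∧
    2 * r = v * (v + 1) then 1 else 0

lemma conjectured_zero {d : ℕ} (h3 : 3 < d) :
    conjectured (3 * d + 2) d (d + 2) = 0 := by
  unfold conjectured
  rw [if_neg]
  rintro ⟨v, s, hv, h1, h2, h4⟩
  push_cast at h1
  have h5 : (4 : ℤ) * d + 6 = v ^ 2 + 5 * v := by linarith
  have h6 : (2 : ℤ) * (d + 2) = v * (v + 1) := by exact_mod_cast h4
  have h7 : (4 : ℤ) * d + 8 = 2 * v ^ 2 + 2 * v := by linarith [h6]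
  have h8 : (v : ℤ) ^ 2 = 3 * v + 2 := by linarith
  have h9 : (v : ℤ) * (v - 3) = 2 := by linarith
  have hv4 : (v : ℤ) < 4 := by nlinarith
  have hv5 : v < 4 := by exact_mod_cast hv4
  interval_cases v <;> omega

/-- For every odd `d > 3`, the conjectured formula for `τ_{n,d}(t)` fails at `n = 3 d + 2`, over
every field of characteristic zero and for every generic form: the coefficient of `t ^ (d + 2)` in
`τ_{n,d}(t)` is positive and the conjectured coefficient is zero. Generic forms exist over `ℂ`. -/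
theorem result (d : ℕ) (hd : Odd d) (h3 : 3 < d) :
    (∀ (K : Type u) [Field K] [CharZero K] (V : Type v) [AddCommGroup V] [Module K V]
      (x : Module.Basis (Fin (3 * d + 2)) K V) (c : Finset (Fin (3 * d + 2)) → K),
      IsGeneric d c →
        conjectured (3 * d + 2) d (d + 2) = 0 ∧
        1 ≤ tau (form x d c) (3 * d + 2) d (d + 2)) ∧
    ∃ c : Finset (Fin (3 * d + 2)) → ℂ, IsGeneric d c := by
  refine ⟨?_, Pool.Agent.Results.MP_a0e599_al.Main.exists_generic _ _⟩
  intro K _ _ V _ _ e c hc
  refine ⟨conjectured_zero h3, ?_⟩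
  have hform : form e d c = Pool.Agent.Results.MP_a0e599_al.Main.form e d c := rfl
  obtain ⟨S, hS⟩ : ∃ S : Finset (Fin (3 * d + 2)), S.card = d := by
    obtain ⟨S, -, hS⟩ := Finset.exists_subset_card_eq
      (s := (Finset.univ : Finset (Fin (3 * d + 2)))) (n := d) (by simp; omega)
    exact ⟨S, hS⟩
  have hcS : c S ≠ 0 := by
    have := hc.2.1 S hS 0
    simpa using this
  have hsq := Pool.Agent.Results.MP_a0e599_al.Main.form_sq (e := e) hd c
  have h1 := Pool.Agent.N34.ExtAnn.ann_lower (r := d + 2) e (by omega) c S hS hcS hsq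
  have h2 := Pool.Agent.N34.ExtAnn.ideal_upper (i := 2) e
    (Pool.Agent.Results.MP_a0e599_al.Main.form_mem (e := e) d c)
  rw [show 2 + d = d + 2 by omega] at h2
  rw [← hform] at h1 h2
  change _ ≤ Module.finrank K (annPart (form e d c) (d + 2)) + _ at h1
  change Module.finrank K (idealPart (form e d c) (d + 2)) ≤ _ at h2
  obtain ⟨h4, h5⟩ := Pool.Agent.N34.ExtAnn.choose_ineq h3
  have h6 : (3 * d + 2).choose (d + 2 + d) = (3 * d + 2).choose d := by
    rw [← Nat.choose_symm (by omega : d ≤ 3 * d + 2)]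
    congr 1
    omega
  rw [h6] at h1
  have hD : Delta (3 * d + 2) d (d + 2) =
      ((3 * d + 2).choose (d + 2) : ℤ) - ((3 * d + 2).choose d : ℤ) := by
    unfold Delta
    rw [if_pos (by omega), h6]
  unfold tau
  rw [hD]
  have h7 : (Module.finrank K (idealPart (form e d c) (d + 2)) : ℤ) ≤
      ((3 * d + 2).choose (d + 2) : ℤ) - ((3 * d + 2).choose d : ℤ) := by
    omega
  rw [max_eq_right h7]
  omega

end Pool.Agent.Results.MP_071b90_al.Disproof
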