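import Mathlib
import Pool.Agent.N116.RightOrd

namespace Pool.Agent.Results.MP_49314d_al.NoUniversal

/-- A group is right-orderable if it has a total order that is invariant under
multiplication on the right. -/
def RightOrderable (G : Type*) [Group G] : Prop :=
  ∃ _ : LinearOrder G, ∀ x y z : G, x ≤ y → x * z ≤ y * z

/-- **Neumann's question has a negative answer.** For every countable group `U`
(right-orderable or not) there is a countable right-orderable group `G`, generated by two
elements, that is not isomorphic to a subgroup of `U`. -/
theorem result (U : Type*) [Group U] [Countable U] :
    ∃ (G : Type) (_ : Group G), Countable G ∧ RightOrderable G ∧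
      (∃ a t : G, Subgroup.closure {a, t} = ⊤) ∧
      ¬ ∃ f : G →* U, Function.Injective f :=
  Pool.Agent.N116.RightOrd.main U

end Pool.Agent.Results.MP_49314d_al.NoUniversal
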