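import Pool.Statements.S16586
import Pool.Agent.H819R3.NR4

set_option autoImplicit false
open Filter Topology
open Pool Pool.MP_38ccf3_nt

namespace Pool.Agent.S16586

open Pool.Agent.H819R3.NR

attribute [local irreducible] P e m

/-- the frequencies of all blocks are at most the expected ones, so they are the expected ones -/
lemma normal_part (r k : ℕ) (hr : 2 ≤ r) (a : ℤ) (ha0 : 0 ≤ a) (ha1 : a < (r : ℤ) ^ k) :
    Tendsto (fun N : ℕ =>
      (((Finset.range N).filter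
          (fun n : ℕ => ⌊(r : ℝ) ^ (n + k) * (XX r)⁻¹⌋ % (r : ℤ) ^ k = a)).card : ℝ) / (N : ℝ))
      atTop (𝓝 (1 / (r : ℝ) ^ k)) := by
  rw [Metric.tendsto_atTop]
  intro δ hδ
  have hr0 : (0 : ℝ) < r := by positivity
  have hr1 : (2 : ℝ) ≤ r := by exact_mod_cast hr
  have hrZ : (0 : ℤ) < (r : ℤ) ^ k := by positivity
  set R : ℝ := (r : ℝ) ^ k with hR
  have hR1 : (1 : ℝ) ≤ R := one_le_pow₀ (by linarith)
  obtain ⟨N0, hN0⟩ := freq_upper r k hr (δ / (2 * R)) (by positivity)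
  refine ⟨N0 + 1, fun N hN => ?_⟩
  have hNpos : 0 < N := by omega
  have hNR : (0 : ℝ) < (N : ℝ) := by exact_mod_cast hNpos
  set p : ℤ → ℝ := fun b =>
    (((Finset.range N).filter
      (fun n : ℕ => ⌊(r : ℝ) ^ (n + k) * (XX r)⁻¹⌋ % (r : ℤ) ^ k = b)).card : ℝ) / (N : ℝ) with hp
  have hb : ∀ b : ℤ, p b ≤ 1 / R + δ / (2 * R) := by
    intro b
    have h1 := hN0 N (by omega) b
    have e1 : ∀ n : ℕ, (r : ℝ) ^ n * (XX r)⁻¹ * ((r ^ k : ℕ) : ℝ) =
        (r : ℝ) ^ (n + k) * (XX r)⁻¹ := by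
      intro n
      push_cast
      rw [pow_add]; ring
    simp only [e1] at h1
    push_cast at h1
    exact h1
  have hsum : ∑ b ∈ Finset.Ico (0 : ℤ) ((r : ℤ) ^ k), p b = 1 := by
    rw [hp, ← Finset.sum_div, div_eq_one_iff_eq hNR.ne']
    have := Finset.card_eq_sum_card_fiberwise (s := Finset.range N)
      (t := Finset.Ico (0 : ℤ) ((r : ℤ) ^ k))
      (f := fun n : ℕ => ⌊(r : ℝ) ^ (n + k) * (XX r)⁻¹⌋ % (r : ℤ) ^ k) (fun n _ => by
        rw [Finset.coe_Ico]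
        exact ⟨Int.emod_nonneg _ hrZ.ne', Int.emod_lt_of_pos _ hrZ⟩)
    rw [Finset.card_range] at this
    have h2 := congrArg (Nat.cast : ℕ → ℝ) this
    push_cast at h2
    exact h2.symm
  have hmem : a ∈ Finset.Ico (0 : ℤ) ((r : ℤ) ^ k) := Finset.mem_Ico.2 ⟨ha0, ha1⟩
  have hsplit := Finset.add_sum_erase (Finset.Ico (0 : ℤ) ((r : ℤ) ^ k)) p hmem
  rw [hsum] at hsplit
  have hcard : (((Finset.Ico (0 : ℤ) ((r : ℤ) ^ k)).erase a).card : ℝ) = R - 1 := by
    rw [Finset.card_erase_of_mem hmem, Int.card_Ico, sub_zero]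
    have h1 : ((r : ℤ) ^ k).toNat = r ^ k := by
      have : ((r : ℤ) ^ k) = ((r ^ k : ℕ) : ℤ) := by push_cast; rfl
      rw [this, Int.toNat_natCast]
    rw [h1, Nat.cast_sub (Nat.one_le_pow _ _ (by omega))]
    push_cast
    rfl
  have hle : ∑ b ∈ (Finset.Ico (0 : ℤ) ((r : ℤ) ^ k)).erase a, p b ≤
      (R - 1) * (1 / R + δ / (2 * R)) := by
    calc ∑ b ∈ (Finset.Ico (0 : ℤ) ((r : ℤ) ^ k)).erase a, p b
        ≤ ∑ b ∈ (Finset.Ico (0 : ℤ) ((r : ℤ) ^ k)).erase a, (1 / R + δ / (2 * R)) :=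
          Finset.sum_le_sum (fun b _ => hb b)
      _ = _ := by rw [Finset.sum_const, nsmul_eq_mul, hcard]
  have e1 : (R - 1) * (1 / R + δ / (2 * R)) = 1 - 1 / R + δ / 2 - δ / (2 * R) := by
    field_simp
    ring
  have e2 : 0 < δ / (2 * R) := by positivity
  have e3 : δ / (2 * R) ≤ δ / 2 := by
    apply div_le_div_of_nonneg_left hδ.le (by norm_num)
    linarith
  have hw := hb a
  rw [Real.dist_eq, abs_lt]
  show -δ < p a - 1 / R ∧ p a - 1 / R < δ
  constructor <;> linarith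

/-- The digit `0` has frequency zero in the number `XX r`, whose digits are mostly `r - 1`. -/
lemma not_normal_part (r : ℕ) (hr : 2 ≤ r) :
    ¬ Tendsto (fun N : ℕ =>
      (((Finset.range N).filter
          (fun n : ℕ => ⌊(r : ℝ) ^ (n + 1) * XX r⌋ % (r : ℤ) ^ 1 = 0)).card : ℝ) / (N : ℝ))
      atTop (𝓝 (1 / (r : ℝ) ^ 1)) := by
  intro h
  have hr0 : (0 : ℝ) < r := by positivity
  have hr1 : (2 : ℝ) ≤ r := by exact_mod_cast hr
  rw [Metric.tendsto_atTop] at h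
  obtain ⟨N0, hN0⟩ := h (1 / (2 * r)) (by positivity)
  obtain ⟨J, hJ⟩ := exists_nat_one_div_lt (show 0 < 1 / (4 * (r : ℝ)) by positivity)
  set N := N0 + m r J + 1 with hN
  have hNpos : 0 < N := by omega
  have hNR : (0 : ℝ) < (N : ℝ) := by exact_mod_cast hNpos
  have h1 := cnt_ratio r J N hr (by omega) hNpos
  have h2 := hN0 N (by omega)
  have h3 : (((Finset.range N).filter
      (fun n : ℕ => ⌊(r : ℝ) ^ (n + 1) * XX r⌋ % (r : ℤ) ^ 1 = 0)).card : ℝ) / (N : ℝ) ≤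
      (cnt r N : ℝ) / N := by
    apply div_le_div_of_nonneg_right _ hNR.le
    unfold cnt
    apply Nat.cast_le.2
    apply Finset.card_le_card
    intro n hn
    rw [Finset.mem_filter] at hn ⊢
    refine ⟨hn.1, fun h4 => ?_⟩
    have h5 := hn.2
    rw [pow_one, mul_comm, h4] at h5
    omega
  rw [Real.dist_eq] at h2
  have h4 := (abs_lt.1 h2).1
  rw [pow_one (r : ℝ)] at h4
  have h5 : (2 : ℝ) / (J + 1) = 2 * (1 / (J + 1)) := by ring
  have h6 : (1 : ℝ) / r = 2 * (1 / (2 * r)) := by field_simp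
  have h7 : (1 : ℝ) / (4 * r) = (1 / (2 * r)) / 2 := by field_simp; norm_num
  rw [h5] at h1
  rw [h7] at hJ
  linarith

/-- The negation of the preceding statement: For every base r ≥ 2 and every real x, if every k-block (k ≥ 1, 0 ≤ m < r^k) occurs among x's fractional base-r digit windows with limiting frequency r^(-k), then the same holds for x⁻¹. -/
theorem result :
    ¬ (∀ r : ℕ, 2 ≤ r → ∀ x : ℝ,
      (∀ k : ℕ, 1 ≤ k → ∀ m : ℤ, 0 ≤ m → m < (r : ℤ) ^ k →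
        Tendsto (fun N : ℕ =>
          (((Finset.range N).filter
              (fun n : ℕ => ⌊(r : ℝ) ^ (n + k) * x⌋ % (r : ℤ) ^ k = m)).card : ℝ) / (N : ℝ))
          atTop (𝓝 (1 / (r : ℝ) ^ k))) →
      (∀ k : ℕ, 1 ≤ k → ∀ m : ℤ, 0 ≤ m → m < (r : ℤ) ^ k →
        Tendsto (fun N : ℕ =>
          (((Finset.range N).filter
              (fun n : ℕ => ⌊(r : ℝ) ^ (n + k) * x⁻¹⌋ % (r : ℤ) ^ k = m)).card : ℝ) / (N : ℝ))
          atTop (𝓝 (1 / (r : ℝ) ^ k)))) := by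
  intro H
  have h1 := H 2 le_rfl (XX 2)⁻¹ (fun k _ a ha0 ha1 => normal_part 2 k le_rfl a ha0 ha1)
    1 le_rfl 0 le_rfl (by norm_num)
  rw [inv_inv] at h1
  exact not_normal_part 2 le_rfl h1

end Pool.Agent.S16586
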