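import Pool.Agent.H986R2.SP.Sat3
import Pool.Agent.H986R2.SP.Thr

/-!
# The threshold sequence of random 3-SAT is eventually at most `4.267 + ε`
-/

set_option autoImplicit false

namespace Pool.Agent.Results.MP_1887ad_co.ThreeSatThreshold

open Filter Topology Finset
open Pool.Agent.H986R2.SP (Cls SatC probSat sat3 probSat_anti probSat_nonneg)
open scoped Classical

/-- The `k`-clauses on `n` variables: `k` distinct variables and the values which satisfy the
literals (each clause of the problem corresponds to `k!` of them). -/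
abbrev Clause (n k : ℕ) : Type := (Fin k ↪ Fin n) × (Fin k → Bool)

/-- the formula `F` is satisfiable -/
def Sat {n k m : ℕ} (F : Fin m → Clause n k) : Prop :=
  ∃ a : Fin n → Bool, ∀ i, ∃ j : Fin k, a ((F i).1 j) = (F i).2 j

/-- The probability that the conjunction of `m` independent uniformly random `k`-clauses on `n`
variables is satisfiable. -/
noncomputable def satProb (k n m : ℕ) : ℝ :=
  ((univ.filter (fun F : Fin m → Clause n k => Sat F)).card : ℝ) /
    (Fintype.card (Fin m → Clause n k) : ℝ)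

/-- `r` is a threshold sequence of random `k`-SAT (`r_k(n)` in the problem). -/
def IsThreshold (k : ℕ) (r : ℕ → ℝ) : Prop :=
  ∀ ε : ℝ, 0 < ε →
    Tendsto (fun n : ℕ => satProb k n ⌊(r n + ε) * (n : ℝ)⌋₊) atTop (𝓝 0) ∧
    Tendsto (fun n : ℕ => satProb k n ⌊(r n - ε) * (n : ℝ)⌋₊) atTop (𝓝 1)

/-- the clause as a tuple of literals -/
def tup {n k : ℕ} (c : Clause n k) : Cls n k := fun j => (c.1 j, c.2 j)

theorem tup_inj {n k : ℕ} : Function.Injective (tup : Clause n k → Cls n k) := by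
  intro c c' h
  have h1 : ∀ j, (c.1 j, c.2 j) = (c'.1 j, c'.2 j) := fun j => congrFun h j
  refine Prod.ext ?_ ?_
  · ext j
    exact congrArg (fun x : Fin n => (x : ℕ)) (Prod.ext_iff.1 (h1 j)).1
  · funext j
    exact (Prod.ext_iff.1 (h1 j)).2

theorem tup_mem {n k : ℕ} (c : Clause n k) : tup c ∈ Pool.Agent.H986R2.SP.dist n k := by
  unfold Pool.Agent.H986R2.SP.dist
  rw [mem_filter]
  exact ⟨mem_univ _, fun j j' h => c.1.injective h⟩

theorem exists_tup {n k : ℕ} (c : Cls n k) (hc : c ∈ Pool.Agent.H986R2.SP.dist n k) : ∃ c' : Clause n k, tup c' = c := by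
  unfold Pool.Agent.H986R2.SP.dist at hc
  rw [mem_filter] at hc
  exact ⟨(⟨fun j => (c j).1, hc.2⟩, fun j => (c j).2), rfl⟩

theorem card_dist (n k : ℕ) : (Pool.Agent.H986R2.SP.dist n k).card = Fintype.card (Clause n k) := by
  rw [← Finset.card_univ, ← Finset.card_image_of_injective univ (tup_inj (n := n) (k := k))]
  congr 1
  ext c
  simp only [mem_image, mem_univ, true_and]
  exact ⟨fun h => exists_tup c h, by rintro ⟨c', rfl⟩; exact tup_mem c'⟩

theorem satProb_eq (k n m : ℕ) : satProb k n m = probSat k n m := by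
  unfold satProb probSat
  congr 1
  · congr 1
    refine Finset.card_bij (fun F _ => fun i => tup (F i)) ?_ ?_ ?_
    · intro F hF
      rw [mem_filter] at hF ⊢
      exact ⟨mem_univ _, fun i => tup_mem _, hF.2⟩
    · intro F _ F' _ h
      funext i
      exact tup_inj (congrFun h i)
    · intro G hG
      rw [mem_filter] at hG
      obtain ⟨-, h1, h2⟩ := hG
      choose F hF using fun i => exists_tup (G i) (h1 i)
      have hG' : (fun i => tup (F i)) = G := funext hF
      refine ⟨F, ?_, hG'⟩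
      rw [mem_filter]
      refine ⟨mem_univ _, ?_⟩
      rw [← hG'] at h2
      exact h2
  · rw [Fintype.card_fun, Fintype.card_fin, card_dist]
    push_cast
    rfl

/-- Random 3-SAT is unsatisfiable with high probability at every density at least `4.267`. -/
theorem unsat (β : ℝ) (hβ : 4.267 ≤ β) :
    Tendsto (fun n : ℕ => satProb 3 n ⌊β * (n : ℝ)⌋₊) atTop (𝓝 0) := by
  have h := sat3 β (by norm_num at hβ ⊢; linarith)
  refine h.congr fun n => ?_
  rw [satProb_eq]

theorem satProb_mono {n m m' : ℕ} (hn : 3 ≤ n) (h : m ≤ m') : satProb 3 n m' ≤ satProb 3 n m := by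
  rw [satProb_eq, satProb_eq]
  obtain ⟨d, rfl⟩ := Nat.exists_eq_add_of_le h
  exact probSat_anti hn m d

theorem threshold_le (r : ℕ → ℝ) (hr : IsThreshold 3 r) (ε : ℝ) (hε : 0 < ε) :
    ∀ᶠ n in atTop, r n ≤ 4.267 + ε := by
  have h0 := unsat 4.267 le_rfl
  have h1 := (hr ε hε).2
  have e0 : ∀ᶠ n : ℕ in atTop, satProb 3 n ⌊(4.267 : ℝ) * (n : ℝ)⌋₊ < 1 / 2 :=
    h0.eventually (gt_mem_nhds (by norm_num))
  have e1 : ∀ᶠ n : ℕ in atTop, 1 / 2 < satProb 3 n ⌊(r n - ε) * (n : ℝ)⌋₊ :=
    h1.eventually (lt_mem_nhds (by norm_num))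
  filter_upwards [e0, e1, eventually_ge_atTop 3] with n a0 a1 hn
  by_contra hcon
  push Not at hcon
  have h2 : ⌊(4.267 : ℝ) * (n : ℝ)⌋₊ ≤ ⌊(r n - ε) * (n : ℝ)⌋₊ :=
    Nat.floor_mono (mul_le_mul_of_nonneg_right (by linarith) (Nat.cast_nonneg n))
  have h3 := satProb_mono hn h2
  linarith

/-- **The random 3-SAT threshold is at most `4.267`.**
(1) For every `β ≥ 4.267` a random 3-SAT formula with `⌊β n⌋` clauses is satisfiable with
probability tending to zero.
(2) Every threshold sequence `r_3(n)` satisfies `r_3(n) ≤ 4.267 + ε` for all large `n`, for every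
`ε > 0`.
(3) If for some `β > 4.267` the probabilities `p n m` (for instance: that the formula of a process
is satisfiable after `m` steps), nonincreasing in `m`, tend to one for `m = ⌊β n⌋`, then for every
threshold sequence `r_3(n)` there is `ε > 0` such that they tend to one for
`m = ⌊(r_3(n) + ε) n⌋`. -/
theorem result :
    (∀ β : ℝ, 4.267 ≤ β → Tendsto (fun n : ℕ => satProb 3 n ⌊β * (n : ℝ)⌋₊) atTop (𝓝 0)) ∧
    (∀ r : ℕ → ℝ, IsThreshold 3 r → ∀ ε : ℝ, 0 < ε → ∀ᶠ n in atTop, r n ≤ 4.267 + ε) ∧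
    (∀ p : ℕ → ℕ → ℝ, (∀ n m m', m ≤ m' → p n m' ≤ p n m) → (∀ n m, p n m ≤ 1) →
      ∀ β : ℝ, 4.267 < β → Tendsto (fun n : ℕ => p n ⌊β * (n : ℝ)⌋₊) atTop (𝓝 1) →
      ∀ r : ℕ → ℝ, IsThreshold 3 r → ∃ ε : ℝ, 0 < ε ∧
        Tendsto (fun n : ℕ => p n ⌊(r n + ε) * (n : ℝ)⌋₊) atTop (𝓝 1)) := by
  refine ⟨unsat, threshold_le, ?_⟩
  intro p hp hp1 β hβ hlim r hr
  refine ⟨(β - 4.267) / 2, by linarith, ?_⟩
  have h1 := threshold_le r hr ((β - 4.267) / 2) (by linarith)
  refine tendsto_of_tendsto_of_tendsto_of_le_of_le' hlim tendsto_const_nhds ?_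
    (Eventually.of_forall fun n => hp1 _ _)
  filter_upwards [h1] with n hn
  refine hp _ _ _ (Nat.floor_mono (mul_le_mul_of_nonneg_right ?_ (Nat.cast_nonneg n)))
  linarith

end Pool.Agent.Results.MP_1887ad_co.ThreeSatThreshold
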