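import Pool.Agent.N357.KRK.Boards

/-!
# MP_b88367_co: the boards on which White can force checkmate

King and rook against king, White king a1, White rook b2, Black king c3, White to move, on the
board with `m` files and `n` ranks (possibly infinitely many), where the Black king may leave the
board over the east edge and over the north edge.  White can force checkmate exactly on the boards
that contain the `9 × 11` board or the `11 × 9` board; so these two are the smallest such boards,
and White can force checkmate on the quarter-infinite board (`m = n = ⊤`).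
-/

namespace Pool.Agent.Results.MP_b88367_co.WinningBoards

open Pool.Agent.N357.KRK

theorem result (m n : ℕ∞) (hm : 3 ≤ m) (hn : 3 ≤ n) :
    (CanForce m n start ↔ (9 ≤ m ∧ 11 ≤ n) ∨ (11 ≤ m ∧ 9 ≤ n)) ∧
    ((∃ k, WinsWithin m n k start) ↔ (9 ≤ m ∧ 11 ≤ n) ∨ (11 ≤ m ∧ 9 ≤ n)) := by
  refine ⟨canForce_iff hm hn, ⟨fun ⟨k, hk⟩ => (canForce_iff hm hn).1 (hk.toCanForce _ _), ?_⟩⟩
  exact fun h => ⟨39, winsWithin_of_big h⟩

end Pool.Agent.Results.MP_b88367_co.WinningBoards
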